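import Mathlib

/-!
# The point pair function of the complement of a line in `ℝ³` is a metric
-/

set_option autoImplicit false

open Real Set

namespace Pool.Agent.Results.MP_a15e14_gt.PointPairMetric

/-- Euclidean three-space. -/
abbrev E3 : Type := EuclideanSpace ℝ (Fin 3)

/-- The `z`-axis `Z = {(0, 0, t)}`. -/
def axis : Set E3 := {x | x 0 = 0 ∧ x 1 = 0}

/-- The domain `G = ℝ³ \ Z`. -/
def G : Set E3 := axisᶜ

/-- The Euclidean distance `d_G(x)` from `x` to the boundary of `G`. -/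
noncomputable def dG (x : E3) : ℝ := Metric.infDist x (frontier G)

/-- The point pair function of `G`. -/
noncomputable def pG (x y : E3) : ℝ := ‖x - y‖ / √(‖x - y‖ ^ 2 + 4 * dG x * dG y)

lemma isClosed_axis : IsClosed axis :=
  (isClosed_eq (by fun_prop) continuous_const).inter (isClosed_eq (by fun_prop) continuous_const)

lemma interior_axis : interior axis = ∅ := by
  by_contra hne
  obtain ⟨x, hx⟩ := Set.nonempty_iff_ne_empty.mpr hne
  have hx0 : x ∈ axis := interior_subset hx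
  have hcont : Continuous (fun t : ℝ => x + t • (EuclideanSpace.single (0 : Fin 3) (1 : ℝ))) := by
    fun_prop
  have hmem : (fun t : ℝ => x + t • (EuclideanSpace.single (0 : Fin 3) (1 : ℝ))) 0 ∈
      interior axis := by simpa using hx
  have hnhds : ∀ᶠ t in nhds (0 : ℝ),
      x + t • (EuclideanSpace.single (0 : Fin 3) (1 : ℝ)) ∈ interior axis :=
    hcont.continuousAt.eventually (isOpen_interior.mem_nhds hmem)
  have h2 : ∀ᶠ t in nhdsWithin (0 : ℝ) (Set.Ioi 0), False := by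
    filter_upwards [hnhds.filter_mono nhdsWithin_le_nhds, self_mem_nhdsWithin] with t ht htpos
    have h3 := (interior_subset ht).1
    have h4 := hx0.1
    simp at h3
    rw [h4] at h3
    have : (0 : ℝ) < t := htpos
    linarith
  exact (h2.exists).elim fun _ h => h

lemma frontier_G : frontier G = axis := by
  unfold G
  rw [frontier_compl, isClosed_axis.frontier_eq, interior_axis, Set.sdiff_empty]

lemma dG_eq (x : E3) : dG x = √(x 0 ^ 2 + x 1 ^ 2) := by
  unfold dG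
  rw [frontier_G]
  have hne : axis.Nonempty := ⟨0, by simp [axis]⟩
  apply le_antisymm
  · have hmem : (!₂[0, 0, x 2] : E3) ∈ axis := by simp [axis]
    refine (Metric.infDist_le_dist_of_mem hmem).trans (le_of_eq ?_)
    rw [EuclideanSpace.dist_eq, Fin.sum_univ_three]
    simp [sq_abs]
  · rw [Metric.le_infDist hne]
    rintro z ⟨hz0, hz1⟩
    rw [EuclideanSpace.dist_eq, Fin.sum_univ_three]
    apply Real.sqrt_le_sqrt
    rw [Real.dist_eq, Real.dist_eq, Real.dist_eq, sq_abs, sq_abs, sq_abs, hz0, hz1]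
    nlinarith [sq_nonneg (x 2 - z 2)]

lemma dG_pos {x : E3} (hx : x ∈ G) : 0 < dG x := by
  rw [dG_eq]
  apply Real.sqrt_pos.mpr
  by_contra h
  push Not at h
  apply hx
  have h0 : x 0 ^ 2 = 0 := by nlinarith [sq_nonneg (x 0), sq_nonneg (x 1)]
  have h1 : x 1 ^ 2 = 0 := by nlinarith [sq_nonneg (x 0), sq_nonneg (x 1)]
  exact ⟨by simpa using h0, by simpa using h1⟩

lemma dG_sq (x : E3) : dG x ^ 2 = x 0 ^ 2 + x 1 ^ 2 := by
  rw [dG_eq, Real.sq_sqrt (by positivity)]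

lemma norm_sub_sq (x y : E3) :
    ‖x - y‖ ^ 2 = (x 0 - y 0) ^ 2 + (x 1 - y 1) ^ 2 + (x 2 - y 2) ^ 2 := by
  rw [EuclideanSpace.norm_eq, Real.sq_sqrt (by positivity), Fin.sum_univ_three]
  simp [sq_abs]

/-- The quantity `1 + |x - y|² / (2 d(x) d(y))`. -/
noncomputable def cc (x y : E3) : ℝ := 1 + ‖x - y‖ ^ 2 / (2 * dG x * dG y)

/-- The hyperbolic part. -/
noncomputable def ch (x y : E3) : ℝ :=
  1 + ((dG x - dG y) ^ 2 + (x 2 - y 2) ^ 2) / (2 * dG x * dG y)

/-- The cosine of the angle between the projections. -/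
noncomputable def ca (x y : E3) : ℝ := (x 0 * y 0 + x 1 * y 1) / (dG x * dG y)

lemma cc_eq {x y : E3} (hx : x ∈ G) (hy : y ∈ G) : cc x y = ch x y + (1 - ca x y) := by
  have h1 := dG_pos hx
  have h2 := dG_pos hy
  have h3 := dG_sq x
  have h4 := dG_sq y
  unfold cc ch ca
  rw [norm_sub_sq]
  field_simp
  nlinarith

/-- The associated point in the half plane. -/
noncomputable def hp (x : E3) (hx : x ∈ G) : UpperHalfPlane :=
  ⟨⟨x 2, dG x⟩, dG_pos hx⟩

lemma ch_eq {x y : E3} (hx : x ∈ G) (hy : y ∈ G) : ch x y = cosh (dist (hp x hx) (hp y hy)) := by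
  rw [UpperHalfPlane.cosh_dist]
  unfold ch
  have h : dist ((hp x hx : UpperHalfPlane) : ℂ) (hp y hy) ^ 2 =
      (dG x - dG y) ^ 2 + (x 2 - y 2) ^ 2 := by
    rw [Complex.dist_eq, ← Complex.normSq_eq_norm_sq, Complex.normSq_apply]
    simp only [hp, Complex.sub_re, Complex.sub_im]
    ring
  rw [h]
  rfl

lemma ch_one_le {x y : E3} (hx : x ∈ G) (hy : y ∈ G) : 1 ≤ ch x y := by
  rw [ch_eq hx hy]; exact one_le_cosh _

lemma ca_le_one {x y : E3} (hx : x ∈ G) (hy : y ∈ G) : ca x y ≤ 1 := by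
  have h1 := dG_pos hx
  have h2 := dG_pos hy
  have h3 := dG_sq x
  have h4 := dG_sq y
  unfold ca
  rw [div_le_one (by positivity)]
  have : (x 0 * y 0 + x 1 * y 1) ^ 2 ≤ (dG x * dG y) ^ 2 := by
    rw [mul_pow, h3, h4]; nlinarith [sq_nonneg (x 0 * y 1 - x 1 * y 0)]
  exact abs_le_of_sq_le_sq' this (by positivity) |>.2

/-- triangle inequality for `ch` -/
lemma ch_triangle {x y z : E3} (hx : x ∈ G) (hy : y ∈ G) (hz : z ∈ G) :
    ch x z ≤ ch x y * ch y z + √(ch x y ^ 2 - 1) * √(ch y z ^ 2 - 1) := by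
  rw [ch_eq hx hy, ch_eq hy hz, ch_eq hx hz]
  set a := dist (hp x hx) (hp y hy) with ha
  set b := dist (hp y hy) (hp z hz) with hb
  have h1 : √(cosh a ^ 2 - 1) = sinh a := by
    rw [← sinh_sq]; exact Real.sqrt_sq (sinh_nonneg_iff.mpr dist_nonneg)
  have h2 : √(cosh b ^ 2 - 1) = sinh b := by
    rw [← sinh_sq]; exact Real.sqrt_sq (sinh_nonneg_iff.mpr dist_nonneg)
  rw [h1, h2, ← cosh_add, cosh_le_cosh, abs_of_nonneg dist_nonneg,
    abs_of_nonneg (add_nonneg dist_nonneg dist_nonneg)]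
  exact dist_triangle _ _ _

/-- triangle inequality for angles -/
lemma ca_triangle {x y z : E3} (hx : x ∈ G) (hy : y ∈ G) (hz : z ∈ G) :
    ca x y * ca y z - √(1 - ca x y ^ 2) * √(1 - ca y z ^ 2) ≤ ca x z := by
  have h1 := dG_pos hx
  have h2 := dG_pos hy
  have h3 := dG_pos hz
  have e1 := dG_sq x
  have e2 := dG_sq y
  have e3 := dG_sq z
  -- the sines
  have hs1 : 1 - ca x y ^ 2 = ((x 0 * y 1 - x 1 * y 0) / (dG x * dG y)) ^ 2 := by
    unfold ca
    rw [div_pow, div_pow, eq_div_iff (by positivity), sub_mul, div_mul_cancel₀ _ (by positivity),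
      mul_pow, e1, e2]
    ring
  have hs2 : 1 - ca y z ^ 2 = ((y 0 * z 1 - y 1 * z 0) / (dG y * dG z)) ^ 2 := by
    unfold ca
    rw [div_pow, div_pow, eq_div_iff (by positivity), sub_mul, div_mul_cancel₀ _ (by positivity),
      mul_pow, e2, e3]
    ring
  have hc : ca x z = ca x y * ca y z -
      ((x 0 * y 1 - x 1 * y 0) / (dG x * dG y)) * ((y 0 * z 1 - y 1 * z 0) / (dG y * dG z)) := by
    unfold ca
    have h2' : dG y ^ 2 ≠ 0 := by positivity
    rw [div_mul_div_comm, div_mul_div_comm, ← sub_div,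
      div_eq_div_iff (by positivity) (by positivity)]
    have : dG x * dG y * (dG y * dG z) = (dG x * dG z) * dG y ^ 2 := by ring
    rw [this, e2]
    ring
  rw [hs1, hs2, hc, Real.sqrt_sq_eq_abs, Real.sqrt_sq_eq_abs, ← abs_mul]
  linarith [le_abs_self (((x 0 * y 1 - x 1 * y 0) / (dG x * dG y)) *
    ((y 0 * z 1 - y 1 * z 0) / (dG y * dG z)))]

lemma ca_sq_le {x y : E3} (hx : x ∈ G) (hy : y ∈ G) : ca x y ^ 2 ≤ 1 := by
  have h1 := dG_pos hx
  have h2 := dG_pos hy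
  have h3 := dG_sq x
  have h4 := dG_sq y
  unfold ca
  rw [div_pow, div_le_one (by positivity), mul_pow, h3, h4]
  nlinarith [sq_nonneg (x 0 * y 1 - x 1 * y 0)]

lemma sqrt_cs {A B C D : ℝ} (hA : 0 ≤ A) (hB : 0 ≤ B) (hC : 0 ≤ C) (hD : 0 ≤ D) :
    √A * √C + √B * √D ≤ √(A + B) * √(C + D) := by
  rw [← Real.sqrt_mul (by positivity) (C + D)]
  apply Real.le_sqrt_of_sq_le
  have h1 : √A ^ 2 = A := Real.sq_sqrt hA
  have h2 : √B ^ 2 = B := Real.sq_sqrt hB
  have h3 : √C ^ 2 = C := Real.sq_sqrt hC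
  have h4 : √D ^ 2 = D := Real.sq_sqrt hD
  calc (√A * √C + √B * √D) ^ 2 ≤ (√A ^ 2 + √B ^ 2) * (√C ^ 2 + √D ^ 2) := by
        nlinarith [sq_nonneg (√A * √D - √B * √C)]
    _ = (A + B) * (C + D) := by rw [h1, h2, h3, h4]

/-- The triangle inequality for `arcosh (cc x y)`, in terms of `cc`. -/
lemma cc_triangle {x y z : E3} (hx : x ∈ G) (hy : y ∈ G) (hz : z ∈ G) :
    cc x z ≤ cc x y * cc y z + √(cc x y ^ 2 - 1) * √(cc y z ^ 2 - 1) := by
  rw [cc_eq hx hz]
  have hA := ch_triangle hx hy hz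
  have hB := ca_triangle hx hy hz
  have h1 := ch_one_le hx hy
  have h2 := ch_one_le hy hz
  have a1 := ca_le_one hx hy
  have a2 := ca_le_one hy hz
  have b1 := ca_sq_le hx hy
  have b2 := ca_sq_le hy hz
  have hS : √(ch x y ^ 2 - 1) * √(ch y z ^ 2 - 1) + √(1 - ca x y ^ 2) * √(1 - ca y z ^ 2) ≤
      √(cc x y ^ 2 - 1) * √(cc y z ^ 2 - 1) := by
    refine (sqrt_cs (by nlinarith) (by nlinarith) (by nlinarith) (by nlinarith)).trans ?_
    have m1 : ch x y ^ 2 - 1 + (1 - ca x y ^ 2) ≤ cc x y ^ 2 - 1 := by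
      rw [cc_eq hx hy]; nlinarith [mul_nonneg (sub_nonneg.mpr h1) (sub_nonneg.mpr a1)]
    have m2 : ch y z ^ 2 - 1 + (1 - ca y z ^ 2) ≤ cc y z ^ 2 - 1 := by
      rw [cc_eq hy hz]; nlinarith [mul_nonneg (sub_nonneg.mpr h2) (sub_nonneg.mpr a2)]
    exact mul_le_mul (Real.sqrt_le_sqrt m1) (Real.sqrt_le_sqrt m2) (Real.sqrt_nonneg _)
      (Real.sqrt_nonneg _)
  have hP : ch x y * ch y z + 1 - ca x y * ca y z ≤ cc x y * cc y z := by
    rw [cc_eq hx hy, cc_eq hy hz]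
    nlinarith [mul_nonneg (sub_nonneg.mpr h1) (sub_nonneg.mpr a2),
      mul_nonneg (sub_nonneg.mpr h2) (sub_nonneg.mpr a1),
      mul_nonneg (sub_nonneg.mpr a1) (sub_nonneg.mpr a2)]
  linarith

lemma pG_nonneg (x y : E3) : 0 ≤ pG x y := by unfold pG; positivity

lemma pG_sq {x y : E3} (hx : x ∈ G) (hy : y ∈ G) :
    pG x y ^ 2 = (cc x y - 1) / (cc x y + 1) := by
  have h1 := dG_pos hx
  have h2 := dG_pos hy
  unfold pG cc
  rw [div_pow, Real.sq_sqrt (by positivity)]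
  rw [div_eq_div_iff (by positivity) (by positivity)]
  field_simp
  ring

lemma pG_lt_one {x y : E3} (hx : x ∈ G) (hy : y ∈ G) : pG x y < 1 := by
  have h1 := dG_pos hx
  have h2 := dG_pos hy
  unfold pG
  rw [div_lt_one (by positivity)]
  apply Real.lt_sqrt_of_sq_lt
  have : 0 < 4 * dG x * dG y := by positivity
  linarith

lemma cc_of_pG {x y : E3} (hx : x ∈ G) (hy : y ∈ G) :
    cc x y = (1 + pG x y ^ 2) / (1 - pG x y ^ 2) := by
  have h1 := dG_pos hx
  have h2 := dG_pos hy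
  have hcc : 0 < cc x y + 1 := by unfold cc; positivity
  rw [pG_sq hx hy]
  field_simp
  ring

lemma sqrt_cc {x y : E3} (hx : x ∈ G) (hy : y ∈ G) :
    √(cc x y ^ 2 - 1) = 2 * pG x y / (1 - pG x y ^ 2) := by
  have h0 := pG_nonneg x y
  have h1 := pG_lt_one hx hy
  have h2 : 0 < 1 - pG x y ^ 2 := by nlinarith
  rw [cc_of_pG hx hy]
  have : ((1 + pG x y ^ 2) / (1 - pG x y ^ 2)) ^ 2 - 1 = (2 * pG x y / (1 - pG x y ^ 2)) ^ 2 := by
    field_simp
    ring
  rw [this, Real.sqrt_sq (by positivity)]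

lemma pG_triangle {x y z : E3} (hx : x ∈ G) (hy : y ∈ G) (hz : z ∈ G) :
    pG x z ≤ pG x y + pG y z := by
  have key := cc_triangle hx hy hz
  rw [sqrt_cc hx hy, sqrt_cc hy hz, cc_of_pG hx hy, cc_of_pG hy hz, cc_of_pG hx hz] at key
  have p0 := pG_nonneg x y
  have p1 := pG_lt_one hx hy
  have q0 := pG_nonneg y z
  have q1 := pG_lt_one hy hz
  have r0 := pG_nonneg x z
  have r1 := pG_lt_one hx hz
  set p := pG x y with hp
  set q := pG y z with hq
  set r := pG x z with hr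
  have hp2 : 0 < 1 - p ^ 2 := by nlinarith
  have hq2 : 0 < 1 - q ^ 2 := by nlinarith
  have hr2 : 0 < 1 - r ^ 2 := by nlinarith
  have key2 : (1 + r ^ 2) / (1 - r ^ 2) ≤
      ((1 + p ^ 2) * (1 + q ^ 2) + 4 * p * q) / ((1 - p ^ 2) * (1 - q ^ 2)) := by
    refine key.trans (le_of_eq ?_)
    field_simp
    ring
  rw [div_le_div_iff₀ hr2 (by positivity)] at key2
  -- `r (1 + p q) ≤ p + q`
  have key3 : (r * (1 + p * q)) ^ 2 ≤ (p + q) ^ 2 := by nlinarith
  have key4 : r * (1 + p * q) ≤ p + q :=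
    (abs_le_of_sq_le_sq' key3 (by positivity)).2
  nlinarith [mul_nonneg r0 (mul_nonneg p0 q0)]

/-- The point pair function of `G = ℝ³ \ Z` is a metric on `G`. -/
theorem result :
    (∀ x ∈ G, ∀ y ∈ G, 0 ≤ pG x y ∧ (pG x y = 0 ↔ x = y) ∧ pG x y = pG y x) ∧
    (∀ x ∈ G, ∀ y ∈ G, ∀ z ∈ G, pG x y ≤ pG x z + pG z y) := by
  refine ⟨fun x hx y hy => ⟨pG_nonneg x y, ?_, ?_⟩, fun x hx y hy z hz => pG_triangle hx hz hy⟩
  · have h1 := dG_pos hx
    have h2 := dG_pos hy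
    unfold pG
    rw [div_eq_zero_iff]
    constructor
    · rintro (h | h)
      · exact sub_eq_zero.mp (norm_eq_zero.mp h)
      · exact absurd h (by positivity)
    · rintro rfl
      simp
  · unfold pG
    rw [norm_sub_rev, mul_assoc, mul_assoc, mul_comm (dG x)]

end Pool.Agent.Results.MP_a15e14_gt.PointPairMetric
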